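import Pool.Agent.Lib.MP_6bc78b_nt.GP.H61.Circ
import Pool.Agent.Lib.MP_6bc78b_nt.MS.P1.CHI
import Pool.Agent.Lib.MP_6bc78b_nt.MS.P1.CHX
import Pool.Agent.Lib.MP_6bc78b_nt.GP.H91.Defs6

/-! Project GP6, row MOM6: second moments of the derivatives of zeta on the critical line. -/

set_option autoImplicit false

open Complex Filter Topology MeasureTheory Set
open scoped ENNReal Real

namespace Pool.Agent.Lib.MP_6bc78b_nt.GP.H97

open Pool.Agent.Lib.MP_6bc78b_nt.MS Pool.Agent.Lib.MP_6bc78b_nt.MS.P1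
open Pool.Agent.Lib.MP_6bc78b_nt.GP.H61

lemma zeta_diff : DifferentiableOn ℂ riemannZeta (ST 0 1) := by
  intro s hs
  refine (differentiableAt_riemannZeta ?_).differentiableWithinAt
  intro h
  have := hs.2
  rw [h] at this
  simp at this

lemma dzeta_diff : DifferentiableOn ℂ (deriv riemannZeta) (ST 0 1) :=
  zeta_diff.deriv (isOpen_ST 0 1)

lemma ddzeta_diff : DifferentiableOn ℂ (deriv (deriv riemannZeta)) (ST 0 1) :=
  dzeta_diff.deriv (isOpen_ST 0 1)

/-- `ZMS` as a bound for `QM`. -/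
lemma qm_zeta (h : ZMSStatement) : ∃ C : ℝ, 0 < C ∧ ∀ σ κ : ℝ, 1 / 2 ≤ σ → σ ≤ 3 / 4 → 0 < κ →
    κ ≤ 1 → QM riemannZeta κ σ ≤ ENNReal.ofReal (C * Real.log (3 / κ) / κ) := by
  obtain ⟨C, hC, h1⟩ := h
  refine ⟨C, hC, fun σ κ a b c d => ?_⟩
  obtain ⟨hi, hb⟩ := h1 σ κ a b c d
  unfold QM
  rw [← ofReal_integral_eq_lintegral_ofReal hi (Eventually.of_forall (fun w => by positivity))]
  exact ENNReal.ofReal_le_ofReal hb

/-- zeta is bounded near the real segment `[1/4, 3/4]`. -/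
lemma zeta_cpt : ∃ M : ℝ, 0 < M ∧ ∀ σ w : ℝ, 1 / 4 ≤ σ → σ ≤ 3 / 4 → |w| ≤ 1 →
    ‖riemannZeta (σ + w * I)‖ ≤ M := by
  have hcomp : IsCompact (Set.Icc (1 / 4 : ℝ) (3 / 4) ×ℂ Set.Icc (-1 : ℝ) 1) :=
    IsCompact.reProdIm isCompact_Icc isCompact_Icc
  have hcont : ContinuousOn (fun s => ‖riemannZeta s‖)
      (Set.Icc (1 / 4 : ℝ) (3 / 4) ×ℂ Set.Icc (-1 : ℝ) 1) := by
    refine (zeta_diff.continuousOn.mono ?_).norm
    intro s hs
    rw [Complex.mem_reProdIm] at hs
    exact ⟨by linarith [hs.1.1], by linarith [hs.1.2]⟩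
  obtain ⟨M, hM⟩ := hcomp.bddAbove_image hcont
  refine ⟨max M 1, by positivity, fun σ w h1 h2 h3 => ?_⟩
  refine (hM ⟨σ + w * I, ?_, rfl⟩).trans (le_max_left _ _)
  rw [Complex.mem_reProdIm]
  rw [abs_le] at h3
  simp only [Complex.add_re, Complex.ofReal_re, Complex.mul_re, Complex.I_re, mul_zero,
    Complex.ofReal_im, Complex.I_im, mul_one, sub_self, add_zero, Complex.add_im,
    Complex.mul_im, zero_add]
  exact ⟨⟨h1, h2⟩, h3.1, h3.2⟩

/-- The reflection, pointwise, for `|w| ≥ 1`. -/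
lemma zeta_left : ∃ C : ℝ, 0 < C ∧ ∀ σ w : ℝ, 1 / 4 ≤ σ → σ ≤ 1 / 2 → 1 ≤ |w| →
    ‖riemannZeta (σ + w * I)‖ ≤ C * (1 + |w|) ^ (1 / 2 - σ) *
      ‖riemannZeta ((1 - σ : ℝ) + (-w : ℝ) * I)‖ := by
  obtain ⟨C, hC, hX⟩ := CHX.chx
  refine ⟨C, hC, fun σ w h1 h2 h3 => ?_⟩
  set s : ℂ := ((1 - σ : ℝ) : ℂ) + ((-w : ℝ) : ℂ) * I with hs
  have hre : s.re = 1 - σ := by simp [hs]
  have him : s.im = -w := by simp [hs]
  have hw0 : w ≠ 0 := by
    intro h
    rw [h, abs_zero] at h3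
    linarith
  have e : (1 : ℂ) - s = σ + w * I := by
    rw [hs]
    push_cast
    ring
  have h4 := CHI.chi.2.2.1 s (by rw [hre]; linarith) (by rw [him]; simpa using hw0)
  rw [e] at h4
  rw [h4, norm_mul]
  have h5 := hX s (by rw [hre]; linarith) (by rw [hre]; linarith)
  rw [hre, him, abs_neg] at h5
  have e2 : (1 - σ - 1 / 2 : ℝ) = 1 / 2 - σ := by ring
  rw [e2] at h5
  exact mul_le_mul_of_nonneg_right h5 (norm_nonneg _)

/-- The weight is harmless: `(1 + |w|)^(2a) exp(-κ|w|) ≤ C exp(-κ|w|/2)` for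
`0 ≤ a ≤ 1/(2L)`, `κ = exp(-L)`. -/
lemma weight {L a w : ℝ} (hL : 8 ≤ L) (ha : 0 ≤ a) (haL : a ≤ 1 / (2 * L)) :
    ((1 + |w|) ^ a) ^ 2 * Real.exp (-(Real.exp (-L) * |w|)) ≤
      Real.exp 2 * Real.exp (-((Real.exp (-L) / 2) * |w|)) := by
  have hw : 0 ≤ |w| := abs_nonneg w
  have hL0 : 0 < L := by linarith
  set κ := Real.exp (-L) with hκ
  have hκ0 : 0 < κ := Real.exp_pos _
  have hκ1 : κ ≤ 1 := by rw [hκ]; exact Real.exp_le_one_iff.2 (by linarith)
  have h1 : Real.log (1 + |w|) ≤ L + κ * |w| := by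
    have h2 : 1 + |w| ≤ Real.exp L * (1 + κ * |w|) := by
      have h3 : Real.exp L * κ = 1 := by rw [hκ, ← Real.exp_add]; simp
      have h4 : 1 ≤ Real.exp L := Real.one_le_exp hL0.le
      calc 1 + |w| ≤ Real.exp L + (Real.exp L * κ) * |w| := by rw [h3]; linarith
        _ = Real.exp L * (1 + κ * |w|) := by ring
    calc Real.log (1 + |w|) ≤ Real.log (Real.exp L * (1 + κ * |w|)) :=
          Real.log_le_log (by positivity) h2
      _ = L + Real.log (1 + κ * |w|) := by
          rw [Real.log_mul (Real.exp_pos _).ne' (by positivity), Real.log_exp]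
      _ ≤ L + κ * |w| := by
          have := Real.log_le_sub_one_of_pos (by positivity : 0 < 1 + κ * |w|)
          linarith
  have h0 : 0 ≤ Real.log (1 + |w|) := Real.log_nonneg (by linarith)
  rw [Real.rpow_def_of_pos (by positivity), ← Real.exp_nat_mul, ← Real.exp_add, ← Real.exp_add]
  refine Real.exp_le_exp.2 ?_
  have h5 : Real.log (1 + |w|) * a ≤ (L + κ * |w|) * (1 / (2 * L)) :=
    mul_le_mul h1 haL ha (by positivity)
  have h6 : (L + κ * |w|) * (1 / (2 * L)) = 1 / 2 + κ * |w| / (2 * L) := by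
    field_simp
  have h7 : κ * |w| / (2 * L) ≤ κ * |w| / 4 := by
    have : 0 ≤ κ * |w| := by positivity
    gcongr
    linarith
  push_cast
  nlinarith

/-- `ZMS` on both sides of the critical line. -/
lemma qm_zeta2 (h : ZMSStatement) : ∃ C : ℝ, 0 < C ∧ ∀ L σ : ℝ, 8 ≤ L →
    1 / 2 - 1 / (2 * L) ≤ σ → σ ≤ 1 / 2 + 1 / (2 * L) →
    QM riemannZeta (Real.exp (-L)) σ ≤ ENNReal.ofReal (C * L * Real.exp L) := by
  obtain ⟨C1, hC1, h1⟩ := qm_zeta h
  obtain ⟨M, hM, h2⟩ := zeta_cpt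
  obtain ⟨C2, hC2, h3⟩ := zeta_left
  have hlogb : ∀ L κ : ℝ, 8 ≤ L → κ = Real.exp (-L) ∨ κ = Real.exp (-L) / 2 →
      C1 * Real.log (3 / κ) / κ ≤ 6 * C1 * L * Real.exp L := by
    intro L κ hL hκ
    have hL0 : 0 < L := by linarith
    have hκ0 : 0 < κ := by
      rcases hκ with h | h <;> rw [h] <;> positivity
    have hk2 : 1 / κ ≤ 2 * Real.exp L := by
      rw [div_le_iff₀ hκ0]
      have h3 : Real.exp L * Real.exp (-L) = 1 := by rw [← Real.exp_add]; simp
      rcases hκ with h | h <;> rw [h] <;> nlinarith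
    have hl : Real.log (3 / κ) ≤ 3 * L := by
      have h5 : 3 / κ ≤ Real.exp (3 * L) := by
        have h6 : 3 / κ = 3 * (1 / κ) := by ring
        have h7 : Real.exp (3 * L) = Real.exp L * Real.exp (2 * L) := by
          rw [← Real.exp_add]; ring_nf
        have h8 : 6 ≤ Real.exp (2 * L) := by
          have := Real.add_one_le_exp (2 * L)
          linarith
        rw [h6, h7]
        nlinarith [Real.exp_pos L]
      calc Real.log (3 / κ) ≤ Real.log (Real.exp (3 * L)) := Real.log_le_log (by positivity) h5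
        _ = 3 * L := Real.log_exp _
    calc C1 * Real.log (3 / κ) / κ = C1 * Real.log (3 / κ) * (1 / κ) := by ring
      _ ≤ C1 * (3 * L) * (2 * Real.exp L) := by gcongr
      _ = 6 * C1 * L * Real.exp L := by ring
  refine ⟨6 * C1 + 4 * M ^ 2 + C2 ^ 2 * Real.exp 2 * (6 * C1), by positivity,
    fun L σ hL ha hb => ?_⟩
  have hL0 : 0 < L := by linarith
  have hi : 1 / (2 * L) ≤ 1 / 16 := one_div_le_one_div_of_le (by norm_num) (by linarith)
  have hi0 : 0 < 1 / (2 * L) := by positivity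
  have hκ0 : 0 < Real.exp (-L) := Real.exp_pos _
  have hκ1 : Real.exp (-L) ≤ 1 := Real.exp_le_one_iff.2 (by linarith)
  have hLe : 1 ≤ L * Real.exp L := by
    have := Real.one_le_exp hL0.le
    nlinarith
  rcases le_or_gt (1 / 2) σ with hs | hs
  · refine (h1 σ _ hs (by linarith) hκ0 hκ1).trans (ENNReal.ofReal_le_ofReal ?_)
    refine (hlogb L _ hL (Or.inl rfl)).trans ?_
    have : 0 ≤ (4 * M ^ 2 + C2 ^ 2 * Real.exp 2 * (6 * C1)) * (L * Real.exp L) := by positivity
    nlinarith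
  -- the left half
  set κ := Real.exp (-L) with hκ
  have hpt : ∀ w : ℝ, ENNReal.ofReal (‖riemannZeta (σ + w * I)‖ ^ 2 * Real.exp (-(κ * |w|))) ≤
      (Set.Icc (-1 : ℝ) 1).indicator (fun _ => ENNReal.ofReal (M ^ 2)) w +
      ENNReal.ofReal (C2 ^ 2 * Real.exp 2) *
        ENNReal.ofReal (‖riemannZeta ((1 - σ : ℝ) + (-w : ℝ) * I)‖ ^ 2 *
          Real.exp (-((κ / 2) * |(-w)|))) := by
    intro w
    rcases le_or_gt |w| 1 with hw | hw
    · rw [Set.indicator_of_mem (by rw [abs_le] at hw; exact ⟨hw.1, hw.2⟩)]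
      refine le_trans (ENNReal.ofReal_le_ofReal ?_) le_self_add
      have h4 := h2 σ w (by linarith) (by linarith) hw
      have h5 : Real.exp (-(κ * |w|)) ≤ 1 :=
        Real.exp_le_one_iff.2 (by have := abs_nonneg w; nlinarith)
      calc ‖riemannZeta (σ + w * I)‖ ^ 2 * Real.exp (-(κ * |w|)) ≤ M ^ 2 * 1 := by gcongr
        _ = M ^ 2 := mul_one _
    · refine le_trans ?_ le_add_self
      rw [← ENNReal.ofReal_mul (by positivity)]
      refine ENNReal.ofReal_le_ofReal ?_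
      have h4 := h3 σ w (by linarith) hs.le hw.le
      have h5 := weight (w := w) hL (a := 1 / 2 - σ) (by linarith) (by linarith)
      rw [abs_neg]
      set Z := ‖riemannZeta ((1 - σ : ℝ) + (-w : ℝ) * I)‖ with hZ
      have hZ0 : 0 ≤ Z := norm_nonneg _
      calc ‖riemannZeta (σ + w * I)‖ ^ 2 * Real.exp (-(κ * |w|))
          ≤ (C2 * (1 + |w|) ^ (1 / 2 - σ) * Z) ^ 2 * Real.exp (-(κ * |w|)) := by gcongr
        _ = C2 ^ 2 * Z ^ 2 * (((1 + |w|) ^ (1 / 2 - σ)) ^ 2 * Real.exp (-(κ * |w|))) := by ring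
        _ ≤ C2 ^ 2 * Z ^ 2 * (Real.exp 2 * Real.exp (-((κ / 2) * |w|))) := by gcongr
        _ = _ := by ring
  have hneg : ∫⁻ w : ℝ, ENNReal.ofReal (‖riemannZeta ((1 - σ : ℝ) + (-w : ℝ) * I)‖ ^ 2 *
      Real.exp (-((κ / 2) * |(-w)|))) = QM riemannZeta (κ / 2) (1 - σ) := by
    unfold QM
    have := (Measure.measurePreserving_neg (volume : Measure ℝ)).lintegral_comp_emb
      (MeasurableEquiv.neg ℝ).measurableEmbedding
      (fun w : ℝ => ENNReal.ofReal (‖riemannZeta ((1 - σ : ℝ) + (w : ℝ) * I)‖ ^ 2 *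
        Real.exp (-((κ / 2) * |w|))))
    exact this
  calc QM riemannZeta κ σ
      ≤ ∫⁻ w : ℝ, ((Set.Icc (-1 : ℝ) 1).indicator (fun _ => ENNReal.ofReal (M ^ 2)) w +
          ENNReal.ofReal (C2 ^ 2 * Real.exp 2) *
            ENNReal.ofReal (‖riemannZeta ((1 - σ : ℝ) + (-w : ℝ) * I)‖ ^ 2 *
              Real.exp (-((κ / 2) * |(-w)|)))) := lintegral_mono hpt
    _ = ENNReal.ofReal (M ^ 2) * 2 + ENNReal.ofReal (C2 ^ 2 * Real.exp 2) *
          QM riemannZeta (κ / 2) (1 - σ) := by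
        rw [lintegral_add_left, lintegral_const_mul', hneg, lintegral_indicator measurableSet_Icc]
        · congr 1
          rw [lintegral_const, Measure.restrict_apply MeasurableSet.univ, Set.univ_inter,
            Real.volume_Icc]
          norm_num
        · exact ENNReal.ofReal_ne_top
        · exact measurable_const.indicator measurableSet_Icc
    _ ≤ ENNReal.ofReal (M ^ 2) * 2 + ENNReal.ofReal (C2 ^ 2 * Real.exp 2) *
          ENNReal.ofReal (6 * C1 * L * Real.exp L) := by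
        gcongr
        exact (h1 (1 - σ) (κ / 2) (by linarith) (by linarith) (by positivity)
          (by linarith)).trans (ENNReal.ofReal_le_ofReal (hlogb L _ hL (Or.inr rfl)))
    _ ≤ _ := by
        have e2 : (2 : ℝ≥0∞) = ENNReal.ofReal 2 := by norm_num
        rw [e2, ← ENNReal.ofReal_mul (by positivity), ← ENNReal.ofReal_mul (by positivity),
          ← ENNReal.ofReal_add (by positivity) (by positivity)]
        refine ENNReal.ofReal_le_ofReal ?_
        have : 0 ≤ (6 * C1) * (L * Real.exp L) := by positivity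
        nlinarith [sq_nonneg M]

/-- **MOM6.** -/
theorem mom6 (hZ : ZMSStatement) : MOM6Statement := by
  obtain ⟨C, hC, h1⟩ := qm_zeta2 hZ
  refine ⟨2 * Real.exp 5 * (48 ^ 2 + 48) * C, Real.exp 8, by positivity, ?_, fun T hT => ?_⟩
  · have h2 : Real.exp 8 = Real.exp 4 * Real.exp 4 := by rw [← Real.exp_add]; norm_num
    have h3 := Real.add_one_lt_exp (by norm_num : (4 : ℝ) ≠ 0)
    nlinarith
  have hT0 : 0 < T := lt_of_lt_of_le (Real.exp_pos 8) hT
  set L := Real.log T with hLd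
  have hL : 8 ≤ L := by
    rw [hLd, ← Real.log_exp 8]
    exact Real.log_le_log (Real.exp_pos 8) hT
  have hL0 : 0 < L := by linarith
  have hTL : Real.exp L = T := Real.exp_log hT0
  set κ := Real.exp (-L) with hκ
  have hκT : κ * T = 1 := by rw [hκ, ← hTL, ← Real.exp_add]; simp
  have hκ0 : 0 < κ := Real.exp_pos _
  have hκ1 : κ ≤ 1 := by rw [hκ]; exact Real.exp_le_one_iff.2 (by linarith)
  have hi : 1 / L ≤ 1 / 8 := one_div_le_one_div_of_le (by norm_num) hL
  have hi0 : 0 < 1 / L := by positivity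
  have hr : 0 < 1 / (4 * L) := by positivity
  have hr' : 1 / (4 * L) = (1 / L) / 4 := by field_simp
  have hr2 : 1 / (2 * L) = (1 / L) / 2 := by field_simp
  have hexp : Real.exp (κ * (1 / (4 * L))) ≤ 3 := by
    have : κ * (1 / (4 * L)) ≤ 1 := by rw [hr']; nlinarith
    exact (Real.exp_le_exp.mpr this).trans (by linarith [Real.exp_one_lt_d9])
  have hfac : Real.exp (κ * (1 / (4 * L))) / (1 / (4 * L)) ^ 2 ≤ 48 * L ^ 2 := by
    have e : (1 / (4 * L)) ^ 2 = 1 / (16 * L ^ 2) := by ring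
    rw [e, div_div_eq_mul_div, div_one]
    nlinarith [sq_nonneg L, Real.exp_pos (κ * (1 / (4 * L)))]
  have hd1 : ∀ σ : ℝ, 1 / 2 - 1 / (4 * L) ≤ σ → σ ≤ 1 / 2 + 1 / (4 * L) →
      QM (deriv riemannZeta) κ σ ≤ ENNReal.ofReal (48 * L ^ 2 * (C * L * Real.exp L)) := by
    intro σ ha hb
    have := circ zeta_diff hκ0.le hr (σ := σ) (by rw [hr'] at *; linarith)
      (by rw [hr'] at *; linarith) (ENNReal.ofReal (C * L * Real.exp L))
      (fun σ' h2 h3 => h1 L σ' hL (by rw [hr2]; rw [hr'] at *; linarith)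
        (by rw [hr2]; rw [hr'] at *; linarith))
    refine this.trans ?_
    rw [← ENNReal.ofReal_mul (by positivity)]
    refine ENNReal.ofReal_le_ofReal ?_
    exact mul_le_mul_of_nonneg_right hfac (by positivity)
  have hd2 : QM (deriv (deriv riemannZeta)) κ (1 / 2) ≤
      ENNReal.ofReal (48 * L ^ 2 * (48 * L ^ 2 * (C * L * Real.exp L))) := by
    have := circ dzeta_diff hκ0.le hr (σ := 1 / 2) (by rw [hr'] at *; linarith)
      (by rw [hr'] at *; linarith) _ hd1
    refine this.trans ?_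
    rw [← ENNReal.ofReal_mul (by positivity)]
    refine ENNReal.ofReal_le_ofReal ?_
    exact mul_le_mul_of_nonneg_right hfac (by positivity)
  have hd1' := hd1 (1 / 2) (by linarith) (by linarith)
  -- from the weighted lower integral to the interval
  have key : ∀ (f : ℂ → ℂ) (A : ℝ), DifferentiableOn ℂ f (ST 0 1) → 0 ≤ A →
      QM f κ (1 / 2) ≤ ENNReal.ofReal A →
      ∫ x in (T / 2)..(5 * T), ‖f (1 / 2 + x * I)‖ ^ 2 ≤ Real.exp 5 * A := by
    intro f A hf hA hq
    have hcont : Continuous (fun x : ℝ => ‖f (1 / 2 + x * I)‖ ^ 2) := by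
      refine (continuous_norm.comp (hf.continuousOn.comp_continuous (by fun_prop) ?_)).pow 2
      intro x
      constructor <;> simp <;> norm_num
    rw [intervalIntegral.integral_of_le (by linarith),
      integral_eq_lintegral_of_nonneg_ae (Eventually.of_forall fun x => by positivity)
        hcont.aestronglyMeasurable]
    refine ENNReal.toReal_le_of_le_ofReal (by positivity) ?_
    calc ∫⁻ x in Ioc (T / 2) (5 * T), ENNReal.ofReal (‖f (1 / 2 + x * I)‖ ^ 2)
        ≤ ∫⁻ x in Ioc (T / 2) (5 * T), ENNReal.ofReal (Real.exp 5) *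
            ENNReal.ofReal (‖f (((1 / 2 : ℝ) : ℂ) + x * I)‖ ^ 2 * Real.exp (-(κ * |x|))) := by
          refine setLIntegral_mono' measurableSet_Ioc fun x hx => ?_
          rw [← ENNReal.ofReal_mul (by positivity)]
          refine ENNReal.ofReal_le_ofReal ?_
          have hx0 : 0 < x := by linarith [hx.1]
          have h5 : κ * |x| ≤ 5 := by
            rw [abs_of_pos hx0]
            calc κ * x ≤ κ * (5 * T) := by gcongr; exact hx.2
              _ = 5 := by rw [mul_left_comm, hκT]; norm_num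
          have h6 : 1 ≤ Real.exp 5 * Real.exp (-(κ * |x|)) := by
            rw [← Real.exp_add]
            exact Real.one_le_exp (by linarith)
          have e : (((1 / 2 : ℝ) : ℂ) + x * I) = 1 / 2 + x * I := by push_cast; ring
          rw [e]
          have h7 : 0 ≤ ‖f (1 / 2 + x * I)‖ ^ 2 := by positivity
          nlinarith
      _ ≤ ∫⁻ x : ℝ, ENNReal.ofReal (Real.exp 5) *
            ENNReal.ofReal (‖f (((1 / 2 : ℝ) : ℂ) + x * I)‖ ^ 2 * Real.exp (-(κ * |x|))) :=
          setLIntegral_le_lintegral _ _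
      _ = ENNReal.ofReal (Real.exp 5) * QM f κ (1 / 2) := by
          rw [lintegral_const_mul' _ _ ENNReal.ofReal_ne_top]
          rfl
      _ ≤ ENNReal.ofReal (Real.exp 5) * ENNReal.ofReal A := by gcongr
      _ = ENNReal.ofReal (Real.exp 5 * A) := (ENNReal.ofReal_mul (by positivity)).symm
  have k1 := key _ _ dzeta_diff (by positivity) hd1'
  have k2 := key _ _ ddzeta_diff (by positivity) hd2
  have hci : ∀ f : ℂ → ℂ, DifferentiableOn ℂ f (ST 0 1) →
      IntervalIntegrable (fun x : ℝ => ‖f (1 / 2 + x * I)‖ ^ 2) volume (T / 2) (5 * T) := by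
    intro f hf
    refine Continuous.intervalIntegrable ?_ _ _
    refine (continuous_norm.comp (hf.continuousOn.comp_continuous (by fun_prop) ?_)).pow 2
    intro x
    constructor <;> simp <;> norm_num
  unfold GG6
  rw [intervalIntegral.integral_add ((hci _ ddzeta_diff).const_mul _)
    ((hci _ dzeta_diff).const_mul _), intervalIntegral.integral_const_mul,
    intervalIntegral.integral_const_mul]
  rw [hTL] at k1 k2
  calc (2 * (1 / L) * ∫ x in (T / 2)..(5 * T), ‖deriv (deriv riemannZeta) (1 / 2 + x * I)‖ ^ 2) +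
        2 / (1 / L) * ∫ x in (T / 2)..(5 * T), ‖deriv riemannZeta (1 / 2 + x * I)‖ ^ 2
      ≤ 2 * (1 / L) * (Real.exp 5 * (48 * L ^ 2 * (48 * L ^ 2 * (C * L * T)))) +
        2 / (1 / L) * (Real.exp 5 * (48 * L ^ 2 * (C * L * T))) := by gcongr
    _ = 2 * Real.exp 5 * (48 ^ 2 + 48) * C * T * L ^ 4 := by
        field_simp
    _ ≤ _ := le_rfl

end Pool.Agent.Lib.MP_6bc78b_nt.GP.H97
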