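import Pool.Agent.Lib.MP_6bc78b_nt.GP.H2.DefsZ
import Pool.Agent.Lib.MP_6bc78b_nt.GP.H91.Defs6
import Pool.Agent.Lib.MP_6bc78b_nt.GP.H37.Gamc
import Pool.Agent.Lib.MP_6bc78b_nt.GP.H47.ConAux

/-! MP_6bc78b_nt, GP11, row ZCEL (helper97): the twisted mean square of `ζ'` over the zeros from the
energy of `Φ` on the rays. -/

set_option autoImplicit false

open Complex Filter Topology MeasureTheory Set
open scoped ENNReal

namespace Pool.Agent.Lib.MP_6bc78b_nt.GP.H97Z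

open Pool.Agent.Lib.MP_6bc78b_nt.GP Pool.Agent.Lib.MP_6bc78b_nt.GP.G11
open Pool.Agent.Lib.MP_6bc78b_nt.GP.G11Z

/-! ### The function `ph1` -/

theorem ph1_small {z : ℂ} (hz : z ≠ 0) (h : ‖z‖ ≤ 1 / 2) : ‖ph1 z‖ ≤ 2 := by
  have h1 : ‖Complex.exp z - 1 - z‖ ≤ ‖z‖ ^ 2 :=
    Complex.norm_exp_sub_one_sub_id_le (by linarith)
  have hz0 : 0 < ‖z‖ := norm_pos_iff.2 hz
  have h2 : ‖z‖ / 2 ≤ ‖Complex.exp z - 1‖ := by
    have h3 : ‖z‖ ≤ ‖Complex.exp z - 1‖ + ‖Complex.exp z - 1 - z‖ := by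
      have := norm_sub_le (Complex.exp z - 1) (Complex.exp z - 1 - z)
      rwa [sub_sub_cancel] at this
    nlinarith
  have hne : Complex.exp z - 1 ≠ 0 := by
    intro h0
    rw [h0, norm_zero] at h2
    linarith
  have e : ph1 z = -((Complex.exp z - 1 - z) / (z * (Complex.exp z - 1))) := by
    unfold ph1
    field_simp
    ring
  rw [e, norm_neg, norm_div, norm_mul, div_le_iff₀ (by positivity)]
  nlinarith

theorem re_le {z : ℂ} : z.re ≤ ‖Complex.exp z - 1‖ := by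
  have h2 : ‖Complex.exp z‖ - ‖(1 : ℂ)‖ ≤ ‖Complex.exp z - 1‖ := norm_sub_norm_le _ _
  rw [Complex.norm_exp, norm_one] at h2
  linarith [Real.add_one_le_exp z.re]

theorem ph1_big {z : ℂ} (hz : 0 < z.re) : ‖ph1 z‖ ≤ 1 / z.re + 1 / ‖z‖ := by
  unfold ph1
  refine (norm_sub_le _ _).trans ?_
  rw [norm_div, norm_div, norm_one]
  have := @re_le z
  gcongr

theorem norm_zr (u δ : ℝ) : ‖zr u δ‖ = 2 * Real.pi * Real.exp u := by
  unfold zr
  rw [norm_mul, norm_mul, norm_mul, Complex.norm_exp, Complex.norm_I]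
  simp [abs_of_pos Real.pi_pos]

theorem re_zr (u δ : ℝ) : (zr u δ).re = 2 * Real.pi * Real.exp u * Real.sin δ := by
  unfold zr
  simp [Complex.mul_re, Complex.mul_im, Complex.exp_im, Complex.exp_re]
  ring

theorem re_mzr {m : ℕ} (u δ : ℝ) :
    ((m : ℂ) * zr u δ).re = m * (2 * Real.pi * Real.exp u * Real.sin δ) := by
  rw [Complex.mul_re, Complex.natCast_re, Complex.natCast_im, re_zr]
  ring

theorem norm_mzr {m : ℕ} (u δ : ℝ) :
    ‖(m : ℂ) * zr u δ‖ = m * (2 * Real.pi * Real.exp u) := by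
  rw [norm_mul, norm_zr, Complex.norm_natCast]

theorem sin_pos {δ : ℝ} (h0 : 0 < δ) (h1 : δ ≤ 1 / 2) : 0 < Real.sin δ :=
  Real.sin_pos_of_pos_of_lt_pi h0 (by linarith [Real.pi_gt_three])

theorem ph1_ray {δ : ℝ} (h0 : 0 < δ) (h1 : δ ≤ 1 / 2) {m : ℕ} (hm : 1 ≤ m) (u : ℝ) :
    ‖ph1 (m * zr u δ)‖ ≤ 2 * (1 + 1 / Real.sin δ) * Real.exp (-|u| / 2 - u / 2) := by
  have hs := sin_pos h0 h1
  have hm' : (1 : ℝ) ≤ m := by exact_mod_cast hm
  have hp := Real.pi_gt_three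
  have he := Real.exp_pos u
  have hre : 0 < ((m : ℂ) * zr u δ).re := by
    rw [re_mzr]
    positivity
  have hb := ph1_big hre
  rw [re_mzr, norm_mzr] at hb
  have hz : (m : ℂ) * zr u δ ≠ 0 := by
    intro h
    rw [h] at hre
    simp at hre
  have hb2 : ‖ph1 (m * zr u δ)‖ ≤
      (1 + 1 / Real.sin δ) * (1 / (m * (2 * Real.pi * Real.exp u))) := by
    refine hb.trans (le_of_eq ?_)
    field_simp
    ring
  rcases le_total 0 u with hu | hu
  · rw [abs_of_nonneg hu, show -u / 2 - u / 2 = -u by ring, Real.exp_neg]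
    refine hb2.trans ?_
    have h3 : 1 / (m * (2 * Real.pi * Real.exp u)) ≤ (Real.exp u)⁻¹ := by
      rw [← one_div]
      apply one_div_le_one_div_of_le he
      nlinarith [mul_pos (by linarith : 0 < 2 * Real.pi) he]
    have h4 : 0 ≤ (Real.exp u)⁻¹ := by positivity
    have h5 : 0 < 1 + 1 / Real.sin δ := by positivity
    calc (1 + 1 / Real.sin δ) * (1 / (m * (2 * Real.pi * Real.exp u)))
        ≤ (1 + 1 / Real.sin δ) * (Real.exp u)⁻¹ := by gcongr
      _ ≤ 2 * (1 + 1 / Real.sin δ) * (Real.exp u)⁻¹ := by nlinarith [mul_nonneg h5.le h4]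
  · rw [abs_of_nonpos hu, show -(-u) / 2 - u / 2 = 0 by ring, Real.exp_zero, mul_one]
    have h5 : 0 < 1 / Real.sin δ := by positivity
    rcases le_total ‖(m : ℂ) * zr u δ‖ (1 / 2) with h | h
    · exact (ph1_small hz h).trans (by linarith)
    · rw [norm_mzr] at h
      refine hb2.trans ?_
      have h6 : 1 / (m * (2 * Real.pi * Real.exp u)) ≤ 2 := by
        rw [div_le_iff₀ (by positivity)]
        linarith
      calc (1 + 1 / Real.sin δ) * (1 / (m * (2 * Real.pi * Real.exp u)))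
          ≤ (1 + 1 / Real.sin δ) * 2 := by gcongr
        _ = 2 * (1 + 1 / Real.sin δ) := by ring

theorem cont_ray {δ : ℝ} (h0 : 0 < δ) (h1 : δ ≤ 1 / 2) {m : ℕ} (hm : 1 ≤ m) :
    Continuous (fun u : ℝ => ph1 (m * zr u δ)) := by
  have hs := sin_pos h0 h1
  have hm' : (0 : ℝ) < m := by exact_mod_cast hm
  have hp := Real.pi_pos
  have hc : Continuous (fun u : ℝ => (m : ℂ) * zr u δ) := by
    unfold zr
    fun_prop
  have hre : ∀ u : ℝ, 0 < ((m : ℂ) * zr u δ).re := by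
    intro u
    rw [re_mzr]
    have := Real.exp_pos u
    positivity
  unfold ph1
  refine Continuous.sub (Continuous.div continuous_const ?_ ?_) (Continuous.div continuous_const hc ?_)
  · exact (Complex.continuous_exp.comp hc).sub continuous_const
  · intro u h
    have h2 := @re_le ((m : ℂ) * zr u δ)
    rw [h, norm_zero] at h2
    linarith [hre u]
  · intro u h
    have h2 := hre u
    rw [h] at h2
    simp at h2

/-- The density. -/
noncomputable def gd (S : Finset ℕ) (a : ℕ → ℂ) (δ u : ℝ) : ℂ :=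
  Ph S a (zr u δ) * ((Real.exp (u / 2) : ℝ) : ℂ)

theorem gd_cont {S : Finset ℕ} {a : ℕ → ℂ} {δ : ℝ} (h0 : 0 < δ) (h1 : δ ≤ 1 / 2)
    (hS : ∀ m ∈ S, 1 ≤ m) : Continuous (gd S a δ) := by
  unfold gd Ph
  refine Continuous.mul ?_ (by fun_prop)
  exact continuous_finsetSum _ fun m hm => continuous_const.mul (cont_ray h0 h1 (hS m hm))

theorem gd_norm {S : Finset ℕ} {a : ℕ → ℂ} {δ : ℝ} (h0 : 0 < δ) (h1 : δ ≤ 1 / 2)
    (hS : ∀ m ∈ S, 1 ≤ m) (u : ℝ) : ‖gd S a δ u‖ ≤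
      ((∑ m ∈ S, ‖a m‖) * (2 * (1 + 1 / Real.sin δ))) * Real.exp (-|u| / 2) := by
  unfold gd Ph
  rw [norm_mul, Complex.norm_real, Real.norm_eq_abs, abs_of_pos (Real.exp_pos _)]
  have h2 : ‖∑ m ∈ S, a m * ph1 (m * zr u δ)‖ ≤
      (∑ m ∈ S, ‖a m‖) * (2 * (1 + 1 / Real.sin δ)) * Real.exp (-|u| / 2 - u / 2) := by
    refine (norm_sum_le _ _).trans ?_
    rw [Finset.sum_mul, Finset.sum_mul]
    refine Finset.sum_le_sum fun m hm => ?_
    rw [norm_mul, mul_assoc]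
    exact mul_le_mul_of_nonneg_left (ph1_ray h0 h1 (hS m hm) u) (norm_nonneg _)
  calc ‖∑ m ∈ S, a m * ph1 (m * zr u δ)‖ * Real.exp (u / 2)
      ≤ (∑ m ∈ S, ‖a m‖) * (2 * (1 + 1 / Real.sin δ)) * Real.exp (-|u| / 2 - u / 2) *
        Real.exp (u / 2) := by gcongr
    _ = ((∑ m ∈ S, ‖a m‖) * (2 * (1 + 1 / Real.sin δ))) * Real.exp (-|u| / 2) := by
        rw [mul_assoc _ (Real.exp (-|u| / 2 - u / 2)), ← Real.exp_add]
        congr 2
        ring

/-! ### Moments -/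

theorem pow_exp (k : ℕ) (u : ℝ) : |u| ^ k * Real.exp (-|u| / 2) ≤ 2 ^ k * (k.factorial : ℝ) := by
  have h := Real.pow_div_factorial_le_exp (|u| / 2) (by positivity) k
  rw [div_le_iff₀ (by positivity), div_pow, div_le_iff₀ (by positivity)] at h
  have h2 : Real.exp (-|u| / 2) = (Real.exp (|u| / 2))⁻¹ := by
    rw [← Real.exp_neg]
    congr 1
    ring
  rw [h2, ← div_eq_mul_inv, div_le_iff₀ (Real.exp_pos _)]
  linarith

theorem mom_int {g : ℝ → ℂ} (hc : Continuous g) {K : ℝ} (hK : ∀ u, ‖g u‖ ≤ K * Real.exp (-|u| / 2))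
    (k : ℕ) : Integrable (fun u : ℝ => (u : ℂ) ^ k * g u) := by
  have hK0 : 0 ≤ K := by
    have := (norm_nonneg _).trans (hK 0)
    simpa using this
  have hi : Integrable (fun u : ℝ =>
      (K * (2 ^ k * (k.factorial : ℝ) + 2 ^ (k + 2) * ((k + 2).factorial : ℝ))) *
        (1 + u ^ 2)⁻¹) := integrable_inv_one_add_sq.const_mul _
  refine hi.mono' ?_ (Eventually.of_forall fun u => ?_)
  · exact (Continuous.mul (by fun_prop) hc).aestronglyMeasurable
  · rw [norm_mul, norm_pow, Complex.norm_real, Real.norm_eq_abs, ← div_eq_mul_inv,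
      le_div_iff₀ (by positivity)]
    have h1 := pow_exp k u
    have h2 := pow_exp (k + 2) u
    have h3 : |u| ^ (k + 2) = |u| ^ k * u ^ 2 := by rw [pow_add, sq_abs]
    calc |u| ^ k * ‖g u‖ * (1 + u ^ 2) ≤ |u| ^ k * (K * Real.exp (-|u| / 2)) * (1 + u ^ 2) := by
          have := hK u
          gcongr
      _ = K * (|u| ^ k * Real.exp (-|u| / 2) + |u| ^ (k + 2) * Real.exp (-|u| / 2)) := by
          rw [h3]
          ring
      _ ≤ K * (2 ^ k * (k.factorial : ℝ) + 2 ^ (k + 2) * ((k + 2).factorial : ℝ)) := by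
          gcongr

/-! ### The transform -/

/-- The transform. -/
noncomputable def FT (g : ℝ → ℂ) (t : ℝ) : ℂ := ∫ u : ℝ, g u * Complex.exp (t * u * I)

theorem norm_e (t u : ℝ) : ‖Complex.exp (t * u * I)‖ = 1 := by
  have : (t * u * I : ℂ) = ((t * u : ℝ) : ℂ) * I := by push_cast; ring
  rw [this, Complex.norm_exp_ofReal_mul_I]

theorem ft_deriv {g : ℝ → ℂ} (hg : Integrable g)
    (hg1 : Integrable (fun u : ℝ => (u : ℂ) * g u)) (t : ℝ) :
    HasDerivAt (FT g) (FT (fun u => I * ((u : ℂ) * g u)) t) t := by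
  have h := hasDerivAt_integral_of_dominated_loc_of_deriv_le (μ := (volume : Measure ℝ))
    (F := fun (t : ℝ) (u : ℝ) => g u * Complex.exp (t * u * I))
    (F' := fun (t : ℝ) (u : ℝ) => (I * ((u : ℂ) * g u)) * Complex.exp (t * u * I))
    (x₀ := t) (s := Set.univ) (bound := fun u => ‖(u : ℂ) * g u‖) univ_mem ?_ ?_ ?_ ?_ ?_ ?_
  · exact h.2
  · refine Eventually.of_forall fun x => ?_
    exact hg.aestronglyMeasurable.mul (by fun_prop : Continuous fun u : ℝ =>
      Complex.exp ((x : ℂ) * u * I)).aestronglyMeasurable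
  · refine hg.mono (hg.aestronglyMeasurable.mul (by fun_prop : Continuous fun u : ℝ =>
      Complex.exp ((t : ℂ) * u * I)).aestronglyMeasurable) (Eventually.of_forall fun u => ?_)
    rw [norm_mul, norm_e, mul_one]
  · exact (hg1.aestronglyMeasurable.const_mul _).mul (by fun_prop : Continuous fun u : ℝ =>
      Complex.exp ((t : ℂ) * u * I)).aestronglyMeasurable
  · refine Eventually.of_forall fun u x _ => ?_
    rw [norm_mul, norm_e, mul_one, norm_mul, Complex.norm_I, one_mul]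
  · exact hg1.norm
  · refine Eventually.of_forall fun u x _ => ?_
    have h1 : HasDerivAt (fun x : ℝ => ((x : ℂ) * u * I)) (u * I) x := by
      have h2 : HasDerivAt (fun x : ℝ => (x : ℂ)) 1 x := Complex.ofRealCLM.hasDerivAt
      have h3 := (h2.mul_const (u : ℂ)).mul_const I
      simpa using h3
    have h2 := (h1.cexp).const_mul (g u)
    refine h2.congr_deriv ?_
    ring

theorem ft_energy (hcel : CELStatement) (hplc : PLCStatement) {g : ℝ → ℂ} (hc : Continuous g)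
    {K : ℝ} (hK : ∀ u, ‖g u‖ ≤ K * Real.exp (-|u| / 2)) {L : ℝ} (hL : 0 < L) {a b : ℝ}
    (hab : a ≤ b) (F : Finset ℝ) (hF : ∀ γ ∈ F, a ≤ γ ∧ γ ≤ b ∧ FT g γ = 0) :
    ENNReal.ofReal (∑ γ ∈ F, ‖FT (fun u => I * ((u : ℂ) * g u)) γ‖ ^ 2) ≤
      ENNReal.ofReal (4 * Real.pi) *
        ∫⁻ u : ℝ, ENNReal.ofReal (‖g u‖ ^ 2 * (L * u ^ 2 + u ^ 4 / L)) := by
  have i0 : Integrable g := by simpa using mom_int hc hK 0
  have i1 : Integrable (fun u : ℝ => (u : ℂ) * g u) := by simpa using mom_int hc hK 1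
  have i2 : Integrable (fun u : ℝ => (u : ℂ) ^ 2 * g u) := mom_int hc hK 2
  have i3 : Integrable (fun u : ℝ => (u : ℂ) ^ 3 * g u) := mom_int hc hK 3
  set g1 : ℝ → ℂ := fun u => I * ((u : ℂ) * g u) with hg1
  set g2 : ℝ → ℂ := fun u => I * ((u : ℂ) * g1 u) with hg2
  set g3 : ℝ → ℂ := fun u => I * ((u : ℂ) * g2 u) with hg3
  have j1 : Integrable g1 := i1.const_mul _
  have e2 : ∀ u : ℝ, g2 u = -((u : ℂ) ^ 2 * g u) := by
    intro u
    simp only [hg2, hg1]
    linear_combination ((u : ℂ) ^ 2 * g u) * Complex.I_mul_I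
  have j2 : Integrable g2 := by
    refine i2.neg.congr (Eventually.of_forall fun u => ?_)
    simp only [Pi.neg_apply]
    rw [e2]
  have j1' : Integrable (fun u : ℝ => (u : ℂ) * g1 u) := by
    refine (i2.const_mul I).congr (Eventually.of_forall fun u => ?_)
    simp only [hg1]
    ring
  have j2' : Integrable (fun u : ℝ => (u : ℂ) * g2 u) := by
    refine i3.neg.congr (Eventually.of_forall fun u => ?_)
    simp only [Pi.neg_apply]
    rw [e2]
    ring
  have d0 : ∀ x, HasDerivAt (FT g) (FT g1 x) x := fun x => ft_deriv i0 i1 x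
  have d1 : ∀ x, HasDerivAt (FT g1) (FT g2 x) x := fun x => ft_deriv j1 j1' x
  have d2 : Continuous (FT g2) := by
    rw [continuous_iff_continuousAt]
    exact fun x => (ft_deriv j2 j2' x).continuousAt
  have d3 : Continuous (FT g1) := by
    rw [continuous_iff_continuousAt]
    exact fun x => (d1 x).continuousAt
  have h := hcel (FT g) (FT g1) (FT g2) d0 d1 d2 a b (1 / L) hab (by positivity) F hF
  refine (ENNReal.ofReal_le_ofReal h).trans ?_
  have hab' : a ≤ b + 1 / L := by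
    have : 0 < 1 / L := by positivity
    linarith
  have hcf : Continuous (fun x : ℝ => 2 * (1 / L) * ‖FT g2 x‖ ^ 2 + 2 / (1 / L) * ‖FT g1 x‖ ^ 2) := by
    fun_prop
  rw [intervalIntegral.integral_of_le hab', integral_eq_lintegral_of_nonneg_ae
    (Eventually.of_forall fun x => by positivity) hcf.aestronglyMeasurable]
  refine ENNReal.ofReal_toReal_le.trans ((setLIntegral_le_lintegral _ _).trans ?_)
  have e3 : ∀ x : ℝ, ENNReal.ofReal (2 * (1 / L) * ‖FT g2 x‖ ^ 2 + 2 / (1 / L) * ‖FT g1 x‖ ^ 2) =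
      ENNReal.ofReal (2 / L) * ENNReal.ofReal (‖FT g2 x‖ ^ 2) +
        ENNReal.ofReal (2 * L) * ENNReal.ofReal (‖FT g1 x‖ ^ 2) := by
    intro x
    rw [← ENNReal.ofReal_mul (by positivity), ← ENNReal.ofReal_mul (by positivity),
      ← ENNReal.ofReal_add (by positivity) (by positivity)]
    congr 1
    field_simp
  rw [lintegral_congr e3, lintegral_add_left (by fun_prop), lintegral_const_mul _ (by fun_prop),
    lintegral_const_mul _ (by fun_prop)]
  have p1 := hplc g1 j1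
  have p2 := hplc g2 j2
  have q1 : ∫⁻ w : ℝ, ENNReal.ofReal (‖g1 w‖ ^ 2) = ∫⁻ w : ℝ, ENNReal.ofReal (w ^ 2 * ‖g w‖ ^ 2) := by
    refine lintegral_congr fun w => ?_
    congr 1
    simp only [hg1]
    rw [norm_mul, norm_mul, Complex.norm_I, one_mul, Complex.norm_real, mul_pow, Real.norm_eq_abs,
      sq_abs]
  have q2 : ∫⁻ w : ℝ, ENNReal.ofReal (‖g2 w‖ ^ 2) = ∫⁻ w : ℝ, ENNReal.ofReal (w ^ 4 * ‖g w‖ ^ 2) := by
    refine lintegral_congr fun w => ?_
    congr 1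
    rw [e2, norm_neg, norm_mul, norm_pow, Complex.norm_real, mul_pow, Real.norm_eq_abs, ← pow_mul,
      show 2 * 2 = 4 from rfl, show |w| ^ 4 = w ^ 4 from by
        rw [show (4 : ℕ) = 2 * 2 from rfl, pow_mul, sq_abs, ← pow_mul]]
  rw [q1] at p1
  rw [q2] at p2
  calc ENNReal.ofReal (2 / L) * (∫⁻ x : ℝ, ENNReal.ofReal (‖FT g2 x‖ ^ 2)) +
        ENNReal.ofReal (2 * L) * ∫⁻ x : ℝ, ENNReal.ofReal (‖FT g1 x‖ ^ 2)
      ≤ ENNReal.ofReal (2 / L) * (ENNReal.ofReal (2 * Real.pi) *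
          ∫⁻ w : ℝ, ENNReal.ofReal (w ^ 4 * ‖g w‖ ^ 2)) +
        ENNReal.ofReal (2 * L) * (ENNReal.ofReal (2 * Real.pi) *
          ∫⁻ w : ℝ, ENNReal.ofReal (w ^ 2 * ‖g w‖ ^ 2)) := by
        gcongr
        · exact p2
        · exact p1
    _ = ENNReal.ofReal (4 * Real.pi) *
        ∫⁻ u : ℝ, ENNReal.ofReal (‖g u‖ ^ 2 * (L * u ^ 2 + u ^ 4 / L)) := by
        have e4 : ∀ u : ℝ, ENNReal.ofReal (‖g u‖ ^ 2 * (L * u ^ 2 + u ^ 4 / L)) =
            ENNReal.ofReal (1 / L) * ENNReal.ofReal (u ^ 4 * ‖g u‖ ^ 2) +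
              ENNReal.ofReal L * ENNReal.ofReal (u ^ 2 * ‖g u‖ ^ 2) := by
          intro u
          rw [← ENNReal.ofReal_mul (by positivity), ← ENNReal.ofReal_mul (by positivity),
            ← ENNReal.ofReal_add (by positivity) (by positivity)]
          congr 1
          field_simp
          ring
        rw [lintegral_congr e4, lintegral_add_left (by fun_prop), lintegral_const_mul _ (by fun_prop),
          lintegral_const_mul _ (by fun_prop), mul_add, ← mul_assoc, ← mul_assoc, ← mul_assoc,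
          ← mul_assoc, ← ENNReal.ofReal_mul (by positivity), ← ENNReal.ofReal_mul (by positivity),
          ← ENNReal.ofReal_mul (by positivity), ← ENNReal.ofReal_mul (by positivity)]
        congr 3
        · field_simp
          ring
        · ring

/-! ### The factor `om0` on the line -/

theorem om0_low {δ γ : ℝ} (hγ : 0 ≤ γ) (h : δ * γ ≤ 8) :
    Real.exp (-16) / 2 ≤ ‖om0 δ (1 / 2 + γ * I)‖ ^ 2 := by
  rw [H37.norm_om0]
  have hre : (1 / 2 + γ * I : ℂ).re = 1 / 2 := by simp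
  have him : (1 / 2 + γ * I : ℂ).im = γ := by simp
  rw [hre, him]
  set G := ‖Complex.Gamma (1 / 2 + γ * I)‖ with hG
  have hG2 : G ^ 2 = Real.pi / Real.cosh (Real.pi * γ) := H37.gamma_half_sq γ
  have hp : (0 : ℝ) < 2 * Real.pi := by positivity
  set P := (2 * Real.pi) ^ (-(1 / 2) : ℝ) with hP
  have hP2 : P ^ 2 = 1 / (2 * Real.pi) := by
    rw [hP, ← Real.rpow_natCast, ← Real.rpow_mul hp.le]
    norm_num
    rw [Real.rpow_neg_one]
    ring
  set E := Real.exp ((Real.pi / 2 - δ) * γ) with hE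
  have hE2 : Real.exp (Real.pi * γ) * Real.exp (-16) ≤ E ^ 2 := by
    rw [hE, ← Real.exp_nat_mul, ← Real.exp_add]
    apply Real.exp_le_exp.2
    push_cast
    nlinarith
  have hcosh : Real.cosh (Real.pi * γ) ≤ Real.exp (Real.pi * γ) := by
    rw [Real.cosh_eq]
    have : Real.exp (-(Real.pi * γ)) ≤ Real.exp (Real.pi * γ) := by
      apply Real.exp_le_exp.2
      have : 0 ≤ Real.pi * γ := by positivity
      linarith
    linarith
  have hcp : 0 < Real.cosh (Real.pi * γ) := Real.cosh_pos _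
  have h1 : (G * P * E) ^ 2 = G ^ 2 * P ^ 2 * E ^ 2 := by ring
  rw [h1, hG2, hP2]
  have h2 : Real.pi / Real.cosh (Real.pi * γ) * (1 / (2 * Real.pi)) * E ^ 2 =
      E ^ 2 / (2 * Real.cosh (Real.pi * γ)) := by
    field_simp
  rw [h2, le_div_iff₀ (by positivity)]
  have h3 := Real.exp_pos (-16)
  nlinarith

theorem cA_diff {S : Finset ℕ} {a : ℕ → ℂ} (hS : ∀ m ∈ S, 1 ≤ m) (s : ℂ) :
    DifferentiableAt ℂ (cA S a) s := by
  unfold cA
  refine DifferentiableAt.fun_sum fun m hm => ?_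
  refine DifferentiableAt.const_mul ?_ _
  refine DifferentiableAt.const_cpow (by fun_prop) (Or.inl ?_)
  have := hS m hm
  exact_mod_cast (by omega : m ≠ 0)

theorem line_deriv (γ : ℝ) : HasDerivAt (fun t : ℝ => (1 / 2 + t * I : ℂ)) I γ := by
  have h2 : HasDerivAt (fun x : ℝ => (x : ℂ)) 1 γ := Complex.ofRealCLM.hasDerivAt
  have h3 := (h2.mul_const I).const_add (1 / 2 : ℂ)
  simpa using h3

theorem zero_deriv {S : Finset ℕ} {a : ℕ → ℂ} (hS : ∀ m ∈ S, 1 ≤ m) (δ : ℝ) {γ : ℝ}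
    (h0 : riemannZeta (1 / 2 + γ * I) = 0) :
    HasDerivAt (fun t : ℝ => om0 δ (1 / 2 + t * I) * riemannZeta (1 / 2 + t * I) *
      cA S a (1 / 2 + t * I))
      (om0 δ (1 / 2 + γ * I) * (deriv riemannZeta (1 / 2 + γ * I) * I) *
        cA S a (1 / 2 + γ * I)) γ := by
  have hne : (1 / 2 + γ * I : ℂ) ≠ 1 := by
    intro h
    have := congrArg Complex.re h
    simp at this
  have hl := line_deriv γ
  have d1 : HasDerivAt (fun t : ℝ => om0 δ (1 / 2 + t * I))
      (deriv (om0 δ) (1 / 2 + γ * I) * I) γ :=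
    ((H47.om0_diff δ (Or.inr (by simp))).hasDerivAt.comp γ hl)
  have d2 : HasDerivAt (fun t : ℝ => riemannZeta (1 / 2 + t * I))
      (deriv riemannZeta (1 / 2 + γ * I) * I) γ :=
    ((differentiableAt_riemannZeta hne).hasDerivAt.comp γ hl)
  have d3 : HasDerivAt (fun t : ℝ => cA S a (1 / 2 + t * I))
      (deriv (cA S a) (1 / 2 + γ * I) * I) γ :=
    ((cA_diff hS _).hasDerivAt.comp γ hl)
  refine ((d1.mul d2).mul d3).congr_deriv ?_
  simp only [Pi.mul_apply]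
  rw [h0]
  ring

/-- One ray. -/
theorem one_ray (hM : ZMELStatement) (hcel : CELStatement) (hplc : PLCStatement) {T δ : ℝ}
    (hT : 10 < T) (hδ1 : 1 / T ≤ δ) (hδ2 : δ ≤ 2 / T) {S : Finset ℕ} {a : ℕ → ℂ}
    (hS : ∀ m ∈ S, 1 ≤ m) (F : Finset ℝ)
    (hF : ∀ γ ∈ F, T / 2 < γ ∧ γ < 4 * T ∧ riemannZeta (1 / 2 + γ * I) = 0) :
    ENNReal.ofReal (Real.exp (-16) / 2 * ∑ γ ∈ F, ‖deriv riemannZeta (1 / 2 + γ * I)‖ ^ 2 *
      ‖cA S a (1 / 2 + γ * I)‖ ^ 2) ≤ ENNReal.ofReal (4 * Real.pi) *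
        ∫⁻ u : ℝ, ENNReal.ofReal (‖Ph S a (zr u δ)‖ ^ 2 * Real.exp u * wt T u) := by
  have hT0 : 0 < T := by linarith
  have hδ0 : 0 < δ := lt_of_lt_of_le (by positivity) hδ1
  have hδ3 : δ ≤ 1 / 2 := hδ2.trans (by
    rw [div_le_div_iff₀ hT0 (by norm_num)]
    linarith)
  have hL : 0 < Real.log T := Real.log_pos (by linarith)
  have hft : ∀ t : ℝ, FT (gd S a δ) t = om0 δ (1 / 2 + t * I) * riemannZeta (1 / 2 + t * I) *
      cA S a (1 / 2 + t * I) := by
    intro t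
    rw [(hM S a δ hS hδ0 hδ3).2.2 t]
    unfold FT gd
    refine integral_congr_ae (Eventually.of_forall fun u => ?_)
    simp only
    rw [mul_comm (t : ℂ) (u : ℂ)]
  have hgc := gd_cont (a := a) hδ0 hδ3 hS
  have hgn := gd_norm (a := a) hδ0 hδ3 hS
  have h1 := ft_energy hcel hplc hgc hgn hL (a := T / 2) (b := 4 * T) (by linarith) F
    (fun γ hγ => ⟨(hF γ hγ).1.le, (hF γ hγ).2.1.le, by rw [hft, (hF γ hγ).2.2]; ring⟩)
  have hder : ∀ γ ∈ F, FT (fun u => I * ((u : ℂ) * gd S a δ u)) γ =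
      om0 δ (1 / 2 + γ * I) * (deriv riemannZeta (1 / 2 + γ * I) * I) *
        cA S a (1 / 2 + γ * I) := by
    intro γ hγ
    have i0 : Integrable (gd S a δ) := by simpa using mom_int hgc hgn 0
    have i1 : Integrable (fun u : ℝ => (u : ℂ) * gd S a δ u) := by simpa using mom_int hgc hgn 1
    have d1 := ft_deriv i0 i1 γ
    have d2 := zero_deriv (a := a) hS δ (hF γ hγ).2.2
    have e : FT (gd S a δ) = fun t : ℝ => om0 δ (1 / 2 + t * I) * riemannZeta (1 / 2 + t * I) *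
        cA S a (1 / 2 + t * I) := funext hft
    rw [e] at d1
    exact d1.unique d2
  have h2 : Real.exp (-16) / 2 * ∑ γ ∈ F, ‖deriv riemannZeta (1 / 2 + γ * I)‖ ^ 2 *
      ‖cA S a (1 / 2 + γ * I)‖ ^ 2 ≤
      ∑ γ ∈ F, ‖FT (fun u => I * ((u : ℂ) * gd S a δ u)) γ‖ ^ 2 := by
    rw [Finset.mul_sum]
    refine Finset.sum_le_sum fun γ hγ => ?_
    obtain ⟨h3, h4, h5⟩ := hF γ hγ
    have hγ0 : 0 ≤ γ := by linarith
    have h6 : δ * γ ≤ 8 := by
      calc δ * γ ≤ 2 / T * (4 * T) := by gcongr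
        _ = 8 := by field_simp; norm_num
    have h7 := om0_low hγ0 h6
    rw [hder γ hγ, norm_mul, norm_mul, norm_mul, Complex.norm_I, mul_one, mul_pow, mul_pow,
      mul_assoc]
    gcongr
  refine (ENNReal.ofReal_le_ofReal h2).trans (h1.trans (le_of_eq ?_))
  congr 1
  refine lintegral_congr fun u => ?_
  congr 1
  unfold gd wt
  rw [norm_mul, Complex.norm_real, Real.norm_eq_abs, abs_of_pos (Real.exp_pos _), mul_pow,
    ← Real.exp_nat_mul]
  push_cast
  rw [show (2 : ℝ) * (u / 2) = u by ring]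

/-- **ZCEL**, any bound `M` for the energy. -/
theorem zcore (hM : ZMELStatement) (hcel : CELStatement) (hplc : PLCStatement) {T M : ℝ}
    (hT : 10 < T) (hM0 : 0 ≤ M) {S : Finset ℕ} {a : ℕ → ℂ} (hS : ∀ m ∈ S, 1 ≤ m)
    (hE : ∫⁻ δ in Icc (1 / T) (2 / T), ∫⁻ u : ℝ,
      ENNReal.ofReal (‖Ph S a (zr u δ)‖ ^ 2 * Real.exp u * wt T u) ≤ ENNReal.ofReal M)
    (F : Finset ℝ)
    (hF : ∀ γ ∈ F, T / 2 < γ ∧ γ < 4 * T ∧ riemannZeta (1 / 2 + γ * I) = 0) :
    ∑ γ ∈ F, ‖deriv riemannZeta (1 / 2 + γ * I)‖ ^ 2 * ‖cA S a (1 / 2 + γ * I)‖ ^ 2 ≤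
      8 * Real.pi * Real.exp 16 * T * M := by
  have hT0 : 0 < T := by linarith
  set X := ∑ γ ∈ F, ‖deriv riemannZeta (1 / 2 + γ * I)‖ ^ 2 * ‖cA S a (1 / 2 + γ * I)‖ ^ 2 with hX
  have hX0 : 0 ≤ X := Finset.sum_nonneg fun γ _ => by positivity
  have h1 : ∫⁻ δ in Icc (1 / T) (2 / T), ENNReal.ofReal (Real.exp (-16) / 2 * X) ≤
      ∫⁻ δ in Icc (1 / T) (2 / T), ENNReal.ofReal (4 * Real.pi) *
        ∫⁻ u : ℝ, ENNReal.ofReal (‖Ph S a (zr u δ)‖ ^ 2 * Real.exp u * wt T u) := by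
    refine setLIntegral_mono' measurableSet_Icc fun δ hδ => ?_
    exact one_ray hM hcel hplc hT hδ.1 hδ.2 hS F hF
  rw [lintegral_const_mul' _ _ ENNReal.ofReal_ne_top, setLIntegral_const, Real.volume_Icc,
    ← ENNReal.ofReal_mul (by positivity)] at h1
  have h2 := h1.trans (mul_le_mul_right hE _)
  rw [← ENNReal.ofReal_mul (by positivity), ENNReal.ofReal_le_ofReal_iff (by positivity)] at h2
  have h3 : 2 / T - 1 / T = 1 / T := by ring
  rw [h3] at h2
  have h4 : Real.exp (-16) * Real.exp 16 = 1 := by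
    rw [← Real.exp_add]
    norm_num
  have h5 : X = (Real.exp (-16) / 2 * X * (1 / T)) * (2 * Real.exp 16 * T) := by
    have h6 : (Real.exp (-16) / 2 * X * (1 / T)) * (2 * Real.exp 16 * T) =
        (Real.exp (-16) * Real.exp 16) * X * (T * T⁻¹) := by ring
    rw [h6, h4, mul_inv_cancel₀ hT0.ne']
    ring
  rw [h5]
  calc Real.exp (-16) / 2 * X * (1 / T) * (2 * Real.exp 16 * T)
      ≤ (4 * Real.pi * M) * (2 * Real.exp 16 * T) := by gcongr
    _ = 8 * Real.pi * Real.exp 16 * T * M := by ring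

/-- **TSD**, by the energy. -/
theorem tsd (hM : ZMELStatement) (hP : ZPOSStatement) (hN : ZNEGStatement) (hcel : CELStatement)
    (hplc : PLCStatement) (hQ : QFNStatement) : TSDStatement := by
  intro _
  obtain ⟨C1, T1, hC1, hT1, h1⟩ := hP
  obtain ⟨C2, T2, hC2, hT2, h2⟩ := hN
  refine ⟨8 * Real.pi * Real.exp 16 * (C1 + C2), max (max T1 T2) (Real.exp (Real.exp 1)),
    by positivity, lt_of_lt_of_le hT1 ((le_max_left _ _).trans (le_max_left _ _)), ?_⟩
  intro T S a hT hS F hF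
  have hTa : T1 ≤ T := ((le_max_left _ _).trans (le_max_left _ _)).trans hT
  have hTb : T2 ≤ T := ((le_max_right _ _).trans (le_max_left _ _)).trans hT
  have hTc : Real.exp (Real.exp 1) ≤ T := (le_max_right _ _).trans hT
  have hT10 : 10 < T := by linarith
  have hT0 : 0 < T := by linarith
  have hS1 : ∀ m ∈ S, 1 ≤ m := fun m hm => (hS m hm).1
  have hL : Real.exp 1 ≤ Real.log T := by
    rw [Real.le_log_iff_exp_le hT0]
    exact hTc
  have hL0 : 0 < Real.log T := lt_of_lt_of_le (Real.exp_pos 1) hL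
  have hl : 1 ≤ Real.log (Real.log T) := by
    rw [Real.le_log_iff_exp_le hL0]
    exact hL
  have hq := hQ S a hS1
  have hR : 0 ≤ Rf S a := hq.1.trans hq.2
  set X := Real.log T ^ 4 * Qf S a + Real.log T ^ 3 * Real.log (Real.log T) ^ 10 * Rf S a with hX
  have hR1 : Real.log T ^ 3 * Rf S a ≤ X := by
    have h3 : 1 ≤ Real.log (Real.log T) ^ 10 := one_le_pow₀ hl
    have h4 : 0 ≤ Real.log T ^ 4 * Qf S a := mul_nonneg (by positivity) hq.1
    have h5 : Real.log T ^ 3 * 1 * Rf S a ≤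
        Real.log T ^ 3 * Real.log (Real.log T) ^ 10 * Rf S a := by gcongr
    rw [mul_one] at h5
    linarith
  have hX0 : 0 ≤ X := (mul_nonneg (by positivity) hR).trans hR1
  have hE : ∫⁻ δ in Icc (1 / T) (2 / T), ∫⁻ u : ℝ,
      ENNReal.ofReal (‖Ph S a (zr u δ)‖ ^ 2 * Real.exp u * wt T u) ≤
      ENNReal.ofReal ((C1 + C2) * X) := by
    have h3 : ∀ δ : ℝ, ∫⁻ u : ℝ, ENNReal.ofReal (‖Ph S a (zr u δ)‖ ^ 2 * Real.exp u * wt T u) ≤
        (∫⁻ u in Ici (0 : ℝ), ENNReal.ofReal (‖Ph S a (zr u δ)‖ ^ 2 * Real.exp u * wt T u)) +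
        ∫⁻ u in Iic (0 : ℝ), ENNReal.ofReal (‖Ph S a (zr u δ)‖ ^ 2 * Real.exp u * wt T u) := by
      intro δ
      rw [← setLIntegral_univ]
      have : (Set.univ : Set ℝ) = Ici 0 ∪ Iic 0 := by
        ext x
        simp
      rw [this]
      exact lintegral_union_le _ _ _
    have h4 : ∫⁻ δ in Icc (1 / T) (2 / T), ∫⁻ u : ℝ,
        ENNReal.ofReal (‖Ph S a (zr u δ)‖ ^ 2 * Real.exp u * wt T u) ≤
        ∫⁻ δ in Icc (1 / T) (2 / T),
          ((∫⁻ u in Ici (0 : ℝ), ENNReal.ofReal (‖Ph S a (zr u δ)‖ ^ 2 * Real.exp u * wt T u)) +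
          ENNReal.ofReal (C2 * T * Real.log T ^ 3 * Rf S a)) := by
      refine setLIntegral_mono' measurableSet_Icc fun δ hδ => ?_
      exact (h3 δ).trans (add_le_add_right (h2 T δ S a hTb hδ.1 hδ.2 hS) _)
    refine h4.trans ?_
    rw [lintegral_add_right _ measurable_const, setLIntegral_const, Real.volume_Icc,
      ← ENNReal.ofReal_mul (by positivity)]
    refine (add_le_add_left (h1 T S a hTa hS) _).trans ?_
    rw [← ENNReal.ofReal_add (by positivity) (by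
      have : 0 ≤ 2 / T - 1 / T := by
        rw [show 2 / T - 1 / T = 1 / T by ring]
        positivity
      positivity)]
    refine ENNReal.ofReal_le_ofReal ?_
    have h5 : C2 * T * Real.log T ^ 3 * Rf S a * (2 / T - 1 / T) =
        C2 * (Real.log T ^ 3 * Rf S a) := by
      field_simp
      ring
    rw [h5, add_mul]
    gcongr
  have h6 := zcore hM hcel hplc hT10 (by positivity) hS1 hE F hF
  refine h6.trans (le_of_eq ?_)
  rw [hX]
  ring

end Pool.Agent.Lib.MP_6bc78b_nt.GP.H97Z
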